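import Mathlib
import Pool.Agent.H584.NF.HPts

/-!
# The constant `κ` of the weak abc inequality is larger than one for every distribution of the three
# conductors, near every point at the infinite places

Let `K` be a number field. For `α₀ + α₁ + α₂ < 1` the abc conjecture over `K` (the strong form of Q1)
implies that only finitely many `x ∈ K` satisfy `cond(x) ≤ α₀ h(x)`, `cond(x - 1) ≤ α₁ h(x)`,
`cond(1/x) ≤ α₂ h(x)`. On the boundary plane `α₀ + α₁ + α₂ = 1` we show, for every number field `K`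
and all positive rational `α₀, α₁, α₂`, that infinitely many `x` satisfy

  `cond(x) ≤ α₀ h(x) - T`, `cond(x - 1) ≤ α₁ h(x) - T`, `cond(1/x) ≤ α₂ h(x) - T`

for every `T`, and that these `x` are dense in the product of the completions of `K` at the infinite
places, if `K` has at most two real places; in general, they are dense in the set of the points such
that one of the three intervals `(-∞, 0)`, `(0, 1)`, `(1, ∞)` contains none of the real coordinates.
The same holds for all real `α₀, α₁, α₂` outside a meagre subset of the plane.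

The points are `x = t ^ (n + m + 1) Q(t) / A(t)` for the Padé approximants of `(1 - t) ^ N` and
`t = 1 - w u / v` with `w ∈ K` fixed and powers `u`, `v` of two rational integers.
-/

set_option autoImplicit false

namespace Pool.Agent.Results.MP_f5a5f7_nt.BoundaryShapes

open NumberField IsDedekindDomain

variable {K : Type} [Field K] [NumberField K]

/-- the absolute logarithmic height (`Height.logHeight₁` is relative to `K`) -/
noncomputable def height (x : K) : ℝ := Height.logHeight₁ x / (Module.finrank ℚ K : ℝ)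

/-- the conductor: the sum of `log N(v) / [K : ℚ]` over the primes `v` with `|x|_v < 1` -/
noncomputable def cond (x : K) : ℝ :=
  (∑ᶠ (v : HeightOneSpectrum (𝓞 K)) (_ : v.valuation K x < 1),
    Real.log (Ideal.absNorm v.asIdeal : ℝ)) / (Module.finrank ℚ K : ℝ)

/-- the points with `cond(x) ≤ α h(x) - T`, `cond(x - 1) ≤ β h(x) - T`, `cond(1/x) ≤ γ h(x) - T` and
`|x - z_w|_w < ε` for all infinite places `w` -/
def Points (K : Type) [Field K] [NumberField K] (α β γ T ε : ℝ) (z : InfinitePlace K → ℂ) : Set K :=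
  {x | x ≠ 0 ∧ x ≠ 1 ∧ cond x ≤ α * height x - T ∧ cond (x - 1) ≤ β * height x - T ∧
    cond x⁻¹ ≤ γ * height x - T ∧ ∀ w : InfinitePlace K, ‖w.embedding x - z w‖ < ε}

/-- `z_w` is real for all real places `w`, and one of the intervals `(-∞, 0)`, `(0, 1)`, `(1, ∞)`
contains none of these real numbers -/
structure Allowed (z : InfinitePlace K → ℂ) : Prop where
  real : ∀ w : InfinitePlace K, w.IsReal → (z w).im = 0
  avoid : (∀ w : InfinitePlace K, w.IsReal → (z w).re ≤ 1) ∨
    (∀ w : InfinitePlace K, w.IsReal → 0 ≤ (z w).re) ∨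
    ∀ w : InfinitePlace K, w.IsReal → (z w).re ≤ 0 ∨ 1 ≤ (z w).re

lemma finrank_pos' : (0 : ℝ) < Module.finrank ℚ K := by
  exact_mod_cast Module.finrank_pos (R := ℚ) (M := K)

lemma sum_cond {α β γ T ε : ℝ} {z : InfinitePlace K → ℂ} (h : α + β + γ = 1) {x : K}
    (hx : x ∈ Points K α β γ T ε z) :
    cond x + cond (x - 1) + cond x⁻¹ + 3 * T ≤ height x := by
  obtain ⟨-, -, h1, h2, h3, -⟩ := hx
  have : height x = α * height x + β * height x + γ * height x := by
    rw [← add_mul, ← add_mul, h, one_mul]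
  linarith

lemma exists_point {α β γ : ℝ} (hα : 0 ≤ α) (hβ : 0 ≤ β) (hγ : 0 ≤ γ) {z : InfinitePlace K → ℂ}
    (h : H584.NF.Shape K α β γ z) {ε : ℝ} (hε : 0 < ε) (T N : ℝ) :
    ∃ x ∈ Points K α β γ T ε z, N ≤ height x := by
  obtain ⟨d, hd⟩ : ∃ d : ℝ, d = (Module.finrank ℚ K : ℝ) := ⟨_, rfl⟩
  have hd0 : 0 < d := by rw [hd]; exact finrank_pos'
  obtain ⟨a, b, c, ha, hb, hc, hs, hN, r1, r2, r3, hp⟩ :=
    H584.NF.hpts hα hβ hγ h hε (d * T) (d * N)
  have hcK : (c : K) ≠ 0 := fun h0 => hc (RingOfIntegers.coe_eq_zero_iff.1 h0)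
  have haK : (a : K) ≠ 0 := fun h0 => ha (RingOfIntegers.coe_eq_zero_iff.1 h0)
  have hbK : (b : K) ≠ 0 := fun h0 => hb (RingOfIntegers.coe_eq_zero_iff.1 h0)
  obtain ⟨L, hL⟩ : ∃ L : ℝ, L = Height.logHeight ![(a : K), (c : K)] := ⟨_, rfl⟩
  rw [← hL] at hN r1 r2 r3
  obtain ⟨x, hx⟩ : ∃ x : K, x = (a : K) / (c : K) := ⟨_, rfl⟩
  have hh : height x = L / d := by
    unfold height
    rw [hx, Height.logHeight₁_div_eq_logHeight, ← hL, hd]
  have hvc : ∀ v : HeightOneSpectrum (𝓞 K), 0 < v.valuation K (c : K) := fun v =>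
    zero_lt_iff.2 ((Valuation.ne_zero_iff _).2 hcK)
  have hva : ∀ v : HeightOneSpectrum (𝓞 K), 0 < v.valuation K (a : K) := fun v =>
    zero_lt_iff.2 ((Valuation.ne_zero_iff _).2 haK)
  have hx1 : x - 1 = -((b : K) / (c : K)) := by
    have e : (b : K) = (c : K) - (a : K) := by
      have : b = c - a := by rw [← hs]; ring
      rw [this]
      push_cast
      rfl
    rw [hx, e]
    field_simp
    ring
  have step : ∀ {y : 𝓞 K} {s : ℝ} (p : HeightOneSpectrum (𝓞 K) → Prop), y ≠ 0 →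
      (∀ v, p v → y ∈ v.asIdeal) → Real.log (H584.NF.RN y) ≤ s * L - d * T →
      (∑ᶠ (v : HeightOneSpectrum (𝓞 K)) (_ : p v), Real.log (Ideal.absNorm v.asIdeal : ℝ)) / d ≤
        s * (L / d) - T := by
    intro y s p hy hpy hr
    have h1 := (H584.NF.finsum_le_log hy p hpy).trans hr
    rw [div_le_iff₀ hd0]
    calc _ ≤ s * L - d * T := h1
      _ = (s * (L / d) - T) * d := by field_simp
  refine ⟨x, ⟨?_, ?_, ?_, ?_, ?_, ?_⟩, ?_⟩
  · rw [hx]
    exact div_ne_zero haK hcK
  · intro h0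
    rw [h0, sub_self] at hx1
    exact div_ne_zero hbK hcK (neg_eq_zero.1 hx1.symm)
  · rw [hh]
    unfold cond
    rw [← hd]
    refine step _ ha (fun v hv => ?_) r1
    rw [hx, map_div₀, div_lt_one₀ (hvc v)] at hv
    exact H584.NF.mem_of_val_lt v hv
  · rw [hh]
    unfold cond
    rw [← hd]
    refine step _ hb (fun v hv => ?_) r2
    rw [hx1, Valuation.map_neg, map_div₀, div_lt_one₀ (hvc v)] at hv
    exact H584.NF.mem_of_val_lt v hv
  · rw [hh]
    unfold cond
    rw [← hd]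
    refine step _ hc (fun v hv => ?_) r3
    rw [hx, inv_div, map_div₀, div_lt_one₀ (hva v)] at hv
    exact H584.NF.mem_of_val_lt v hv
  · rw [hx]
    exact hp
  · rw [hh, le_div_iff₀ hd0, mul_comm]
    exact hN

lemma infinite_of {S : Set K} (h : ∀ N : ℝ, ∃ x ∈ S, N ≤ height x) : S.Infinite := by
  intro hf
  obtain ⟨M, hM⟩ := (hf.image height).bddAbove
  obtain ⟨x, hx, hN⟩ := h (M + 1)
  have := hM ⟨x, hx, rfl⟩
  linarith

lemma rational {α β γ : ℚ} (hα : 0 < α) (hβ : 0 < β) (hγ : 0 < γ) (h : α + β + γ = 1)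
    {z : InfinitePlace K → ℂ} (hz : Allowed z) {ε : ℝ} (hε : 0 < ε) (T N : ℝ) :
    ∃ x ∈ Points K α β γ T ε z, N ≤ height x := by
  have hα' : (0 : ℝ) < α := by exact_mod_cast hα
  have hβ' : (0 : ℝ) < β := by exact_mod_cast hβ
  have hγ' : (0 : ℝ) < γ := by exact_mod_cast hγ
  exact exists_point hα'.le hβ'.le hγ'.le
    (H584.NF.shape_avoid hα hβ hγ h z hz.real hz.avoid) hε T N

/-- the triangle -/
def Tri (p : ℝ × ℝ) : Prop := 0 < p.1 ∧ 0 < p.2 ∧ p.1 + p.2 < 1

lemma isOpen_tri : IsOpen {p : ℝ × ℝ | Tri p} := by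
  have h1 : IsOpen {p : ℝ × ℝ | 0 < p.1} := isOpen_lt continuous_const continuous_fst
  have h2 : IsOpen {p : ℝ × ℝ | 0 < p.2} := isOpen_lt continuous_const continuous_snd
  have h3 : IsOpen {p : ℝ × ℝ | p.1 + p.2 < 1} :=
    isOpen_lt (continuous_fst.add continuous_snd) continuous_const
  exact h1.inter (h2.inter h3)

lemma residual_one {z : InfinitePlace K → ℂ} (hz : Allowed z) {ε : ℝ} (hε : 0 < ε) (T N : ℝ) :
    ∀ᶠ p in residual (ℝ × ℝ), Tri p →
      ∃ x ∈ Points K p.1 p.2 (1 - p.1 - p.2) T ε z, N ≤ height x := by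
  obtain ⟨P, hP⟩ : ∃ P : Set (ℝ × ℝ), P = {p | Tri p →
    ∃ x ∈ Points K p.1 p.2 (1 - p.1 - p.2) T ε z, N ≤ height x} := ⟨_, rfl⟩
  have hd : Dense (interior P) := by
    rw [dense_iff_inter_open]
    rintro W hW ⟨w, hw⟩
    by_cases hne : (W ∩ {p : ℝ × ℝ | Tri p}).Nonempty
    · obtain ⟨q, hq⟩ := (Rat.denseRange_cast (𝕜 := ℝ)).prodMap (Rat.denseRange_cast (𝕜 := ℝ))
        |>.exists_mem_open (hW.inter isOpen_tri) hne
      obtain ⟨hqW, hqT⟩ := hq
      obtain ⟨q1, q2⟩ := q
      simp only [Prod.map_apply] at hqW hqT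
      obtain ⟨t1, t2, t3⟩ := hqT
      simp only at t1 t2 t3
      have s1 : 0 < q1 := by exact_mod_cast t1
      have s2 : 0 < q2 := by exact_mod_cast t2
      have s3 : q1 + q2 < 1 := by exact_mod_cast t3
      obtain ⟨x, ⟨x0, x1, c1, c2, c3, hp⟩, hN⟩ := rational (K := K) s1 s2
        (show 0 < 1 - q1 - q2 by linarith) (by ring) hz hε (T + 1) N
      push_cast at c3
      refine ⟨((q1 : ℝ), (q2 : ℝ)), hqW, ?_⟩
      have hU : IsOpen {p : ℝ × ℝ | cond x < p.1 * height x - T ∧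
          cond (x - 1) < p.2 * height x - T ∧ cond x⁻¹ < (1 - p.1 - p.2) * height x - T} := by
        have h1 : IsOpen {p : ℝ × ℝ | cond x < p.1 * height x - T} :=
          isOpen_lt continuous_const (by fun_prop)
        have h2 : IsOpen {p : ℝ × ℝ | cond (x - 1) < p.2 * height x - T} :=
          isOpen_lt continuous_const (by fun_prop)
        have h3 : IsOpen {p : ℝ × ℝ | cond x⁻¹ < (1 - p.1 - p.2) * height x - T} :=
          isOpen_lt continuous_const (by fun_prop)
        exact h1.inter (h2.inter h3)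
      refine interior_maximal ?_ hU ⟨by simp only; linarith, by simp only; linarith,
        by simp only; linarith⟩
      rintro p ⟨g1, g2, g3⟩
      rw [hP]
      exact fun _ => ⟨x, ⟨x0, x1, g1.le, g2.le, g3.le, hp⟩, hN⟩
    · refine ⟨w, hw, interior_maximal (fun p hp => ?_) hW hw⟩
      rw [hP]
      exact fun ht => absurd ⟨p, hp, ht⟩ hne
  have h1 : interior P ∈ residual (ℝ × ℝ) := residual_of_dense_open isOpen_interior hd
  have h2 : P ∈ residual (ℝ × ℝ) := Filter.mem_of_superset h1 interior_subset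
  rw [hP] at h2
  exact h2

lemma generic (K : Type) [Field K] [NumberField K] : ∀ᶠ p in residual (ℝ × ℝ), Tri p →
    ∀ z : InfinitePlace K → ℂ, Allowed z → ∀ ε T : ℝ, 0 < ε →
      (Points K p.1 p.2 (1 - p.1 - p.2) T ε z).Infinite := by
  obtain ⟨Z, hZc, hZd⟩ :=
    TopologicalSpace.exists_countable_dense {z : InfinitePlace K → ℂ // Allowed z}
  have h1 : ∀ᶠ p in residual (ℝ × ℝ), ∀ z ∈ Z, ∀ n : ℕ, Tri p →
      ∃ x ∈ Points K p.1 p.2 (1 - p.1 - p.2) n (1 / (n + 1)) z.1, (n : ℝ) ≤ height x := by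
    rw [eventually_countable_ball hZc]
    intro z _
    rw [eventually_countable_forall]
    intro n
    exact residual_one z.2 (by positivity) _ _
  filter_upwards [h1] with p hp ht z hz ε T hε
  refine infinite_of fun N => ?_
  obtain ⟨n, hn⟩ := exists_nat_ge (max T (max N (2 / ε)))
  have n1 : T ≤ n := (le_max_left _ _).trans hn
  have n2 : N ≤ n := ((le_max_left _ _).trans (le_max_right _ _)).trans hn
  have n3 : 2 / ε ≤ n := ((le_max_right _ _).trans (le_max_right _ _)).trans hn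
  obtain ⟨z', hz'Z, hz'⟩ := hZd.exists_dist_lt ⟨z, hz⟩ (show 0 < ε / 2 by linarith)
  obtain ⟨x, ⟨x0, x1, c1, c2, c3, hx⟩, hN⟩ := hp z' hz'Z n ht
  refine ⟨x, ⟨x0, x1, by linarith, by linarith, by linarith, fun w => ?_⟩, n2.trans hN⟩
  have e1 := hx w
  have e2 : ‖z'.1 w - z w‖ < ε / 2 := by
    have h3 : dist z z'.1 < ε / 2 := hz'
    have h4 := dist_le_pi_dist z z'.1 w
    rw [dist_comm, dist_eq_norm] at h4
    linarith
  have e3 : (1 : ℝ) / (n + 1) < ε / 2 := by
    rw [div_le_iff₀ hε] at n3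
    rw [div_lt_div_iff₀ (by positivity) two_pos]
    linarith
  have := norm_sub_le_norm_sub_add_norm_sub (w.embedding x) (z'.1 w) (z w)
  linarith

lemma allowed_of_two (h : InfinitePlace.nrRealPlaces K ≤ 2) (z : InfinitePlace K → ℂ)
    (hz : ∀ w : InfinitePlace K, w.IsReal → (z w).im = 0) : Allowed z := by
  classical
  refine ⟨hz, ?_⟩
  by_contra hcon
  push Not at hcon
  obtain ⟨⟨w₁, r1, h1⟩, ⟨w₂, r2, h2⟩, w₃, r3, h3, h4⟩ := hcon
  have n12 : (⟨w₁, r1⟩ : {w : InfinitePlace K // w.IsReal}) ≠ ⟨w₂, r2⟩ := by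
    intro e
    rw [Subtype.mk.injEq] at e
    rw [e] at h1
    linarith
  have n13 : (⟨w₁, r1⟩ : {w : InfinitePlace K // w.IsReal}) ≠ ⟨w₃, r3⟩ := by
    intro e
    rw [Subtype.mk.injEq] at e
    rw [e] at h1
    linarith
  have n23 : (⟨w₂, r2⟩ : {w : InfinitePlace K // w.IsReal}) ≠ ⟨w₃, r3⟩ := by
    intro e
    rw [Subtype.mk.injEq] at e
    rw [e] at h2
    linarith
  have hc := Finset.card_eq_three.2 ⟨_, _, _, n12, n13, n23, rfl⟩
  have hle := Finset.card_le_univ
    ({⟨w₁, r1⟩, ⟨w₂, r2⟩, ⟨w₃, r3⟩} : Finset {w : InfinitePlace K // w.IsReal})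
  rw [hc] at hle
  have : Fintype.card {w : InfinitePlace K // w.IsReal} ≤ 2 := by
    convert h
  omega

/-- **Main theorem.** Let `K` be a number field.
(1) Let `α`, `β`, `γ` be positive rational numbers with `α + β + γ = 1`. For all allowed positions `z`
and all real `T` and `ε > 0` there are infinitely many `x ∈ K` with `cond(x) ≤ α h(x) - T`,
`cond(x - 1) ≤ β h(x) - T`, `cond(1/x) ≤ γ h(x) - T` and `|x - z_w|_w < ε` for all infinite places
`w`; all of them satisfy `cond(x) + cond(x - 1) + cond(1/x) + 3 T ≤ h(x)`.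
(2) The same holds for all real points `(α, β, γ)` of the plane with `α, β, γ > 0`, except for a
meagre set.
(3) If `K` has at most two real places, all positions are allowed. -/
theorem result (K : Type) [Field K] [NumberField K] :
    (∀ α β γ : ℚ, 0 < α → 0 < β → 0 < γ → α + β + γ = 1 → ∀ z : InfinitePlace K → ℂ, Allowed z →
      ∀ ε T : ℝ, 0 < ε → (Points K α β γ T ε z).Infinite ∧
        ∀ x ∈ Points K α β γ T ε z, cond x + cond (x - 1) + cond x⁻¹ + 3 * T ≤ height x) ∧
    (∀ᶠ p in residual (ℝ × ℝ), 0 < p.1 ∧ 0 < p.2 ∧ p.1 + p.2 < 1 →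
      ∀ z : InfinitePlace K → ℂ, Allowed z → ∀ ε T : ℝ, 0 < ε →
        (Points K p.1 p.2 (1 - p.1 - p.2) T ε z).Infinite) ∧
    (InfinitePlace.nrRealPlaces K ≤ 2 → ∀ z : InfinitePlace K → ℂ,
      (∀ w : InfinitePlace K, w.IsReal → (z w).im = 0) → Allowed z) := by
  refine ⟨fun α β γ hα hβ hγ h z hz ε T hε => ⟨infinite_of fun N => ?_, fun x hx => ?_⟩, ?_,
    allowed_of_two⟩
  · exact rational hα hβ hγ h hz hε T N
  · exact sum_cond (by exact_mod_cast h) hx
  · exact generic K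

end Pool.Agent.Results.MP_f5a5f7_nt.BoundaryShapes
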