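import Pool.Agent.H461.WkA.Pkg

/-!
# The values at rational arguments of split rational functions over a number field: special points
of degree three

`K` is a number field and `f` a rational function of degree `D` over `K` which takes the values
`0`, `1` and infinity at `q` points of the projective line, all of them `K`-rational, but not
necessarily rational. We count the values `x = f(t)`, `t ∈ ℚ`, of bounded height for which
`c(x) = cond(x) + cond(1/x) + cond(x - 1)` is small, and those which violate an inequality of the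
form of the weak abc-conjecture. The exponent is exact if the `q` points have degree at most three
over `ℚ` and not exactly one of them is rational.
-/

set_option autoImplicit false

namespace Pool.Agent.Results.MP_f5a5f7_nt.CubicRationalArguments

open NumberField IsDedekindDomain Polynomial

variable {K : Type} [Field K] [NumberField K]

/-- the absolute logarithmic Weil height `h(x)`, as in the problem -/
noncomputable def height (x : K) : ℝ :=
  (1 / (Module.finrank ℚ K : ℝ)) *
    ((∑ w : InfinitePlace K, (w.mult : ℝ) * Real.log (max 1 (w x))) +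
      ∑ᶠ v : HeightOneSpectrum (𝓞 K), Real.log (max 1 (FinitePlace.mk v x)))

/-- the conductor `cond(x)`, as in the problem: the sum of `log N(v) / d` over the primes `v` at
which `x` has a positive valuation -/
noncomputable def cond (x : K) : ℝ :=
  (1 / (Module.finrank ℚ K : ℝ)) *
    (∑ᶠ v : HeightOneSpectrum (𝓞 K),
      (if FinitePlace.mk v x < 1 then Real.log (Ideal.absNorm v.asIdeal : ℝ) else 0))

/-- the sum `cond(x) + cond(1/x) + cond(x - 1)` of the problem -/
noncomputable def conductors (x : K) : ℝ := cond x + cond x⁻¹ + cond (x - 1)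

open Classical in
/-- the points of the projective line (`none` is infinity) at which the function `f = P 0 / P 2`,
with `1 - f = P 1 / P 2`, has one of the values `0`, `1` and infinity -/
noncomputable def zeros {K : Type} [Field K] (P : Fin 3 → K[X]) : Finset (Option K) :=
  ((∏ i, P i).roots.toFinset).image some ∪
    if ∃ i j, (P i).natDegree < (P j).natDegree then {none} else ∅

/-- the degree over `ℚ` of a point of the projective line -/
noncomputable def degree (a : Option K) : ℕ :=
  a.elim 1 fun r => (minpoly ℚ r).natDegree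

/-- the number of the rational points among the zeros -/
noncomputable def rationalZeros (P : Fin 3 → K[X]) : ℕ :=
  ((zeros P).filter fun a => degree a = 1).card

/-- the weight of an irrational point: one half if its degree is two or three, and `1 / degree`
if the degree is at least four -/
noncomputable def weight (a : Option K) : ℝ := if degree a ≤ 3 then 1 / 2 else 1 / (degree a : ℝ)

/-- the sum of the weights over the zeros of degree at least two, plus half the number of the
rational zeros if there are at least two of them -/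
noncomputable def S (P : Fin 3 → K[X]) : ℝ :=
  ∑ a ∈ (zeros P).filter (fun a => 2 ≤ degree a), weight a +
    if 2 ≤ rationalZeros P then (rationalZeros P : ℝ) / 2 else 0

/-- the values `x = f(t)`, `x ≠ 0, 1`, of `f = P 0 / P 2` at rational `t` -/
def Value (P : Fin 3 → K[X]) (x : K) : Prop :=
  x ≠ 0 ∧ x ≠ 1 ∧
    ∃ t : ℚ, (P 2).eval (t : K) ≠ 0 ∧ x = (P 0).eval (t : K) / (P 2).eval (t : K)

/-- the values with `cond(x) + cond(1/x) + cond(x - 1) ≤ log X` and `h(x) ≤ T` -/
def Values (P : Fin 3 → K[X]) (X T : ℝ) : Set K :=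
  {x | Value P x ∧ conductors x ≤ Real.log X ∧ height x ≤ T}

/-- the values of height at most `log B` which violate the inequality
`h(x) < κ (cond(x) + cond(1/x) + cond(x - 1)) - c` -/
def Violations (P : Fin 3 → K[X]) (κ c B : ℝ) : Set K :=
  {x | Value P x ∧ κ * conductors x ≤ height x + c ∧ height x ≤ Real.log B}

section
variable {P : Fin 3 → K[X]}

open Pool.Agent.Q10.KY Pool.Agent.Q10.KZ Pool.Agent.H461.WkA

omit [NumberField K] in
theorem zeros_eq : zeros P = pts P := by
  classical
  unfold zeros pts rts Unequal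
  congr!

theorem degree_eq : (degree : Option K → ℕ) = dgr := rfl

theorem rationalZeros_eq : rationalZeros P = (rat P).card := by
  classical
  unfold rationalZeros rat
  rw [zeros_eq, degree_eq]

theorem weight_eq (a : Option K) : weight a = wt a / (dgr a : ℝ) := by
  have h : (0 : ℝ) < (dgr a : ℝ) := by exact_mod_cast dgr_pos a
  unfold weight wt
  rw [degree_eq]
  split_ifs
  · field_simp
  · rfl

theorem S_eq : S P = S3 P := by
  classical
  unfold S S3
  rw [rationalZeros_eq, zeros_eq, degree_eq]
  simp only [weight_eq]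

theorem values_eq (X T : ℝ) : Values P X T = ValsT P X T := by
  ext x
  constructor
  · rintro ⟨⟨h1, h2, h3⟩, h4, h5⟩
    exact ⟨⟨h1, h2, h3, h4⟩, h5⟩
  · rintro ⟨⟨h1, h2, h3, h4⟩, h5⟩
    exact ⟨⟨h1, h2, h3⟩, h4, h5⟩

theorem violations_eq (κ c B : ℝ) : Violations P κ c B = Viol P κ c B := by
  ext x
  constructor
  · rintro ⟨⟨h1, h2, h3⟩, h4, h5⟩
    exact ⟨h1, h2, h3, h5, h4⟩
  · rintro ⟨h1, h2, h3, h5, h4⟩
    exact ⟨⟨h1, h2, h3⟩, h4, h5⟩

end

open Pool.Agent.Q10.KY Pool.Agent.Q10.KZ Pool.Agent.H461.WkA in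
/-- **Theorem.** Let `K` be a number field and `f = P 0 / P 2` a rational function of degree
`D ≥ 1` over `K` in lowest terms, `1 - f = P 1 / P 2`, which has the values `0`, `1` and infinity
only at points of the projective line over `K`, `q` points in all. Write `c(x)` for
`cond(x) + cond(1/x) + cond(x - 1)`. Consider the numbers `x = f(t)`, `x ≠ 0, 1`, `t` rational.

(1) For all `κ, ε > 0` at most `C X ^ (1 / S + ε)` of them satisfy `c(x) ≤ log X` and
`h(x) ≤ κ log X`.

(2) For all `κ, ε > 0` and real `c₀` at most `C B ^ (1 / (κ S) + ε)` of those of height at most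
`log B` violate `h(x) < κ c(x) - c₀`.

(3) If the `q` points all have degree at most three over `ℚ` and the number of the rational ones
among them is not one, then `S = q / 2` and for every `κ > D / q` the number of the `x = f(t)` with
`c(x) ≤ log X` and `h(x) ≤ κ log X` is `X ^ (2 / q + o(1))`.

(4) The condition on the degrees holds if `[K : ℚ] ≤ 3`. -/
theorem result (K : Type) [Field K] [NumberField K] (P : Fin 3 → K[X])
    (hP : ∀ i, P i ≠ 0) (hsum : P 0 + P 1 = P 2) (hcop : IsCoprime (P 0) (P 1))
    (hs : ∀ i, (P i).Splits)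
    (D : ℕ) (hD : 1 ≤ D) (hdeg : ∀ i, (P i).natDegree ≤ D) (hdeg' : ∃ i, (P i).natDegree = D)
    (q : ℕ) (hq : (zeros P).card = q) :
    (∀ κ ε : ℝ, 0 < κ → 0 < ε → ∃ C : ℝ, ∀ X : ℝ, 1 ≤ X →
      (Values P X (κ * Real.log X)).Finite ∧
      ((Values P X (κ * Real.log X)).ncard : ℝ) ≤ C * X ^ (1 / S P + ε)) ∧
    (∀ κ c₀ ε : ℝ, 0 < κ → 0 < ε → ∃ C : ℝ, ∀ B : ℝ, 1 ≤ B →
      (Violations P κ c₀ B).Finite ∧
      ((Violations P κ c₀ B).ncard : ℝ) ≤ C * B ^ (1 / (κ * S P) + ε)) ∧
    ((∀ a ∈ zeros P, degree a ≤ 3) → rationalZeros P ≠ 1 → S P = (q : ℝ) / 2 ∧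
      ∀ κ : ℝ, (D : ℝ) / q < κ → ∀ δ : ℝ, 0 < δ → ∃ X₀ : ℝ, ∀ X : ℝ, X₀ ≤ X →
        X ^ (2 / (q : ℝ) - δ) ≤ ((Values P X (κ * Real.log X)).ncard : ℝ) ∧
        ((Values P X (κ * Real.log X)).ncard : ℝ) ≤ X ^ (2 / (q : ℝ) + δ)) ∧
    (Module.finrank ℚ K ≤ 3 → ∀ a ∈ zeros P, degree a ≤ 3) := by
  classical
  rw [zeros_eq] at hq
  obtain ⟨h1, h2, h3⟩ := values' hP hs hsum hcop hD hdeg hdeg' hq
  simp only [values_eq, violations_eq, S_eq, zeros_eq, degree_eq, rationalZeros_eq]
  refine ⟨?_, ?_, ?_, ?_⟩
  · intro κ ε hκ hε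
    obtain ⟨C, -, h⟩ := h1 κ ε hκ hε
    exact ⟨C, h⟩
  · intro κ c₀ ε hκ hε
    obtain ⟨C, -, h⟩ := h2 κ c₀ ε hκ hε
    exact ⟨C, h⟩
  · intro hd hr
    refine ⟨by rw [S3_three hd hr, hq], fun κ hκ δ hδ => ?_⟩
    obtain ⟨X₀, -, h⟩ := h3 hd hr κ hκ δ hδ
    exact ⟨X₀, h⟩
  · intro hK a _
    cases a with
    | none => exact (by norm_num : (1 : ℕ) ≤ 3)
    | some r => exact (minpoly.natDegree_le r).trans hK

end Pool.Agent.Results.MP_f5a5f7_nt.CubicRationalArguments
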