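import Mathlib
import Pool.Agent.H432.WK.Main

set_option autoImplicit false

/-!
# The weak abc conjecture and the weak truncated Vojta inequality on rational curves of bounded degree

The weak abc conjecture over a number field `K` states that there is `κ > 1` with
`h(x) ≤ κ (cond(x) + cond(1/x) + cond(x - 1) + 1)` for all `x ≠ 0, 1` in `K`.

`X ⊂ ℙ^(M - 1)` is a smooth projective variety over a number field `k` of dimension `n ≥ 1` (the
equations `G i` generate its prime ideal) and `D = D_1 + ⋯ + D_q` is a divisor with normal crossings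
on `X`, where `D_i` is the intersection of `X` with the common zeros of forms `F i j` of degree `δ i`.

The theorem. For all `X`, `D`, `N` over `k` there is a proper closed subset `Z` of `X` such that

* for every number field `L` over `k` over which the weak abc conjecture holds there is `κ` such that
  for all rational curves `φ : ℙ^1 → X` over `L` of degree at most `N` which are not contained in
  `Z ∪ D` and meet `D` only at parameters in `ℙ^1(L)`, and all finite `S`, there is `C` with
  `h_K(x) + h_D(x) ≤ κ N^(1)_S(D, x) + C` for all `x = φ(s)`, `s ∈ ℙ^1(L)`, outside `D`: the slope `κ`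
  is the same for all these curves;
* if the weak abc conjecture holds over all number fields (the question Q1), the same is true for all
  rational curves over `L` of degree at most `N` outside `Z ∪ D`, with `κ` depending on the curve.

Conversely, the first statement over `L` implies the weak abc conjecture over `L`, and the second one
for all `k` implies Q1.
-/

namespace Pool.Agent.Results.MP_f5a5f7_nt.WeakVojtaOnRationalCurves

open NumberField IsDedekindDomain MvPolynomial

/-- The absolute logarithmic height of a vector over `L`; `h(x)` is the height of `(x, 1)`. -/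
noncomputable def height {L : Type} [Field L] [NumberField L] {ι : Type} [Finite ι]
    (x : ι → L) : ℝ := Height.logHeight x / Module.finrank ℚ L

open Classical in
/-- The conductor `cond(x)`. -/
noncomputable def cond {K : Type} [Field K] [NumberField K] (x : K) : ℝ :=
  (∑ᶠ v : HeightOneSpectrum (𝓞 K), if v.valuation K x < 1 then
    Real.log (Ideal.absNorm v.asIdeal) else 0) / Module.finrank ℚ K

/-- The weak abc conjecture over `K`. -/
def WeakABC (K : Type) [Field K] [NumberField K] : Prop :=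
  ∃ κ : ℝ, 1 < κ ∧ ∀ x : K, x ≠ 0 → x ≠ 1 →
    height ![x, 1] ≤ κ * (cond x + cond x⁻¹ + cond (x - 1) + 1)

/-- The tangent space at `z` of the affine cone over the variety with the equations `G i`: the vectors
`v` with `∑ j, (∂_j G i)(z) v_j = 0` for all `i`. -/
noncomputable def tangentSpace {k Ω : Type} [Field k] [Field Ω] [Algebra k Ω] {M g : ℕ}
    (G : Fin g → MvPolynomial (Fin M) k) (z : Fin M → Ω) : Submodule Ω (Fin M → Ω) :=
  ⨅ i, LinearMap.ker (∑ j, aeval z (pderiv j (G i)) • LinearMap.proj (R := Ω) (φ := fun _ => Ω) j)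

/-- The variety with the equations `G i` is smooth of dimension `n`: at all points over all extension
fields the tangent space of the cone has dimension `n + 1`. -/
def IsSmooth {k : Type} [Field k] {M g : ℕ} (n : ℕ) (G : Fin g → MvPolynomial (Fin M) k) : Prop :=
  ∀ (Ω : Type) [Field Ω] [Algebra k Ω] (z : Fin M → Ω), z ≠ 0 → (∀ i, aeval z (G i) = 0) →
    Module.finrank Ω (tangentSpace G z) = n + 1

/-- The subschemes `D_i` of the (smooth) variety, where `D_i` has the equations `F i j`, have normal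
crossings: at each point `z` of the variety over each extension field one can choose for every `i` one
of the equations `F i j` such that the differentials of the chosen equations of those `D_i` which
contain `z` are linearly independent on the tangent space. -/
def IsNormalCrossings {k : Type} [Field k] {M g q w : ℕ}
    (G : Fin g → MvPolynomial (Fin M) k) (F : Fin q → Fin w → MvPolynomial (Fin M) k) : Prop :=
  ∀ (Ω : Type) [Field Ω] [Algebra k Ω] (z : Fin M → Ω), z ≠ 0 → (∀ i, aeval z (G i) = 0) →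
    ∃ J : Fin q → Fin w, ∀ c : Fin q → Ω,
      (∀ i, c i ≠ 0 → ∀ j, aeval z (F i j) = 0) →
      (∀ v ∈ tangentSpace G z, ∑ i, c i * ∑ l, aeval z (pderiv l (F i (J i))) * v l = 0) → c = 0

/-- The point with the parameter `z = (z_0 : z_1)` on the curve with the coefficients `c`: its
coordinates are the binary forms `∑ m, c l m z_0 ^ m z_1 ^ (d - m)` of degree `d`. -/
def curvePoint {R : Type} [CommRing R] {M d : ℕ} (c : Fin M → Fin (d + 1) → R) (z : Fin 2 → R) :
    Fin M → R := fun l => ∑ m : Fin (d + 1), c l m * (z 0 ^ (m : ℕ) * z 1 ^ (d - m))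

/-- The binary forms with the coefficients `c` have no common zero and define a morphism from the
projective line to the variety with the equations `G i`. -/
def IsRationalCurve {k L : Type} [Field k] [Field L] [Algebra k L] {M g d : ℕ}
    (G : Fin g → MvPolynomial (Fin M) k) (c : Fin M → Fin (d + 1) → L) : Prop :=
  ∀ (Ω : Type) [Field Ω] [Algebra k Ω] [Algebra L Ω] [IsScalarTower k L Ω] (z : Fin 2 → Ω), z ≠ 0 →
    curvePoint (fun l m => algebraMap L Ω (c l m)) z ≠ 0 ∧
    ∀ i, aeval (curvePoint (fun l m => algebraMap L Ω (c l m)) z) (G i) = 0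

/-- The curve meets `D` only at parameters in `ℙ^1(L)`: if `z ≠ 0` is a vector over an extension field
`Ω` of `L` and the point with the parameter `z` lies in one of the `D_i`, then `z` is proportional to a
vector over `L`. -/
def IsSplit {k L : Type} [Field k] [Field L] [Algebra k L] {M q w d : ℕ}
    (F : Fin q → Fin w → MvPolynomial (Fin M) k) (c : Fin M → Fin (d + 1) → L) : Prop :=
  ∀ (Ω : Type) [Field Ω] [Algebra L Ω] [Algebra k Ω] [IsScalarTower k L Ω] (z : Fin 2 → Ω), z ≠ 0 →
    ∀ i, (∀ j, aeval (curvePoint (fun l m => algebraMap L Ω (c l m)) z) (F i j) = 0) →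
    ∃ (y : Fin 2 → L) (a : Ω), z = fun i => a * algebraMap L Ω (y i)

/-- The columns of `A` are a basis of the tangent space of the cone at `x` (for a smooth variety of
dimension `n`). -/
def IsTangentBasis {k L : Type} [Field k] [Field L] [Algebra k L] {M g n : ℕ}
    (G : Fin g → MvPolynomial (Fin M) k) (x : Fin M → L) (A : Matrix (Fin M) (Fin (n + 1)) L) :
    Prop :=
  LinearIndependent L A.col ∧ ∀ c, A.col c ∈ tangentSpace G x

/-- The height `h_K(x)` for the canonical class `K` of the variety: the Gauss map `γ` sends a point to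
its embedded tangent space, `γ^* O(1) = K + (n + 1) H` for the hyperplane class `H`; `h_K(x)` is the
height of the vector of the maximal minors of a basis `A` of the tangent space minus
`(n + 1) h(x)`. -/
noncomputable def canonicalHeight {L : Type} [Field L] [NumberField L] {M n : ℕ} (x : Fin M → L)
    (A : Matrix (Fin M) (Fin (n + 1)) L) : ℝ :=
  height (fun J : Fin (n + 1) → Fin M => (A.submatrix J id).det) - (n + 1) * height x

/-- The height `h_D(x) = ∑ i, h_{D_i}(x)`, where `h_{D_i}(x) = δ i h(x) - h(F i 0 (x) : F i 1 (x) : …)`: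
the forms `F i j` are sections of `δ i H` with the fixed part `D_i` and without further base
points. -/
noncomputable def divisorHeight {k L : Type} [Field k] [Field L] [NumberField L] [Algebra k L]
    {M q w : ℕ} (F : Fin q → Fin w → MvPolynomial (Fin M) k) (δ : Fin q → ℕ) (x : Fin M → L) : ℝ :=
  ∑ i, (δ i * height x - height fun j => aeval x (F i j))

/-- The local height `λ_{D_i}(x) = log ((max_l |x_l|) ^ δ i / max_j |F i j (x)|)` for an absolute value
of `L`, where `D_i` has the equations `F i j` of degree `δ i`. -/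
noncomputable def localHeight {k L : Type} [Field k] [Field L] [NumberField L] [Algebra k L]
    {M w : ℕ} (f : AbsoluteValue L ℝ) (F : Fin w → MvPolynomial (Fin M) k) (δ : ℕ)
    (x : Fin M → L) : ℝ :=
  Real.log ((⨆ l, f (x l)) ^ δ / ⨆ j, f (aeval x (F j)))

open Classical in
/-- The truncated counting function `N^(1)_S(D, x)`: the sum of `log N(v)` over the primes `v` which are
not in `S` and at which one of the local heights `λ_{D_i}(x)` is positive, divided by `[L : ℚ]`. -/
noncomputable def counting {k L : Type} [Field k] [Field L] [NumberField L] [Algebra k L]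
    {M q w : ℕ} (S : Finset (HeightOneSpectrum (𝓞 L)))
    (F : Fin q → Fin w → MvPolynomial (Fin M) k) (δ : Fin q → ℕ) (x : Fin M → L) : ℝ :=
  (∑ᶠ v : HeightOneSpectrum (𝓞 L),
    if v ∉ S ∧ ∃ i, 0 < localHeight (FinitePlace.mk v).1 (F i) (δ i) x then
      Real.log (Ideal.absNorm v.asIdeal) else 0) / Module.finrank ℚ L

/-- The variety `X` with the equations `G i` (of degree `e i`) is smooth, projective, irreducible of
dimension `n ≥ 1`, and the `D_i` with the equations `F i j` of degree `δ i` form a divisor with normal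
crossings on `X`. -/
def IsPair {k : Type} [Field k] (n : ℕ) {M g q w : ℕ} (G : Fin g → MvPolynomial (Fin M) k)
    (e : Fin g → ℕ) (F : Fin q → Fin w → MvPolynomial (Fin M) k) (δ : Fin q → ℕ) : Prop :=
  1 ≤ n ∧ (∀ i, (G i).IsHomogeneous (e i)) ∧ (Ideal.span (Set.range G)).IsPrime ∧ IsSmooth n G ∧
    (∀ i j, (F i j).IsHomogeneous (δ i)) ∧ IsNormalCrossings G F

/-- The rational curve over `L` with the coefficients `c` lies on `X`, but not in the zero set of `Φ`
and not in `D`. -/
def IsGeneral {k L : Type} [Field k] [Field L] [Algebra k L] {M g q w d : ℕ}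
    (G : Fin g → MvPolynomial (Fin M) k) (F : Fin q → Fin w → MvPolynomial (Fin M) k)
    (Φ : MvPolynomial (Fin M) k) (c : Fin M → Fin (d + 1) → L) : Prop :=
  IsRationalCurve G c ∧ (∃ z : Fin 2 → L, aeval (curvePoint c z) Φ ≠ 0) ∧
    ∃ z : Fin 2 → L, z ≠ 0 ∧ ∀ i, ∃ j, aeval (curvePoint c z) (F i j) ≠ 0

/-- The inequality `h_K(x) + h_D(x) ≤ κ N^(1)_S(D, x) + C` for all points `x = φ(s)`, `s ∈ ℙ^1(L)`,
outside `D`, for the rational curve `φ` over `L` with the coefficients `c`. -/
def Inequality {k L : Type} [Field k] [Field L] [NumberField L] [Algebra k L] (n : ℕ)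
    {M g q w d : ℕ} (G : Fin g → MvPolynomial (Fin M) k) (F : Fin q → Fin w → MvPolynomial (Fin M) k)
    (δ : Fin q → ℕ) (c : Fin M → Fin (d + 1) → L) (S : Finset (HeightOneSpectrum (𝓞 L)))
    (κ C : ℝ) : Prop :=
  ∀ s : Fin 2 → L, s ≠ 0 → (∀ i, ∃ j, aeval (curvePoint c s) (F i j) ≠ 0) →
    ∀ A : Matrix (Fin M) (Fin (n + 1)) L, IsTangentBasis G (curvePoint c s) A →
    canonicalHeight (curvePoint c s) A + divisorHeight F δ (curvePoint c s) ≤
      κ * counting S F δ (curvePoint c s) + C

/-- The weak inequality over `L` with one slope `κ` for all rational curves of degree at most `N` over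
`L` outside `Z ∪ D` which meet `D` only at parameters in `ℙ^1(L)`. -/
def SplitCurves {k : Type} [Field k] (L : Type) [Field L] [NumberField L] [Algebra k L] (n : ℕ)
    {M g q w : ℕ} (G : Fin g → MvPolynomial (Fin M) k) (F : Fin q → Fin w → MvPolynomial (Fin M) k)
    (δ : Fin q → ℕ) (N : ℕ) (Φ : MvPolynomial (Fin M) k) : Prop :=
  ∃ κ : ℝ, ∀ d ≤ N, ∀ c : Fin M → Fin (d + 1) → L, IsGeneral G F Φ c → IsSplit F c →
    ∀ S : Finset (HeightOneSpectrum (𝓞 L)), ∃ C : ℝ, Inequality n G F δ c S κ C

/-- The weak inequality over `L` for all rational curves of degree at most `N` over `L` outside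
`Z ∪ D`; the slope `κ` may depend on the curve. -/
def RationalCurves {k : Type} [Field k] (L : Type) [Field L] [NumberField L] [Algebra k L] (n : ℕ)
    {M g q w : ℕ} (G : Fin g → MvPolynomial (Fin M) k) (F : Fin q → Fin w → MvPolynomial (Fin M) k)
    (δ : Fin q → ℕ) (N : ℕ) (Φ : MvPolynomial (Fin M) k) : Prop :=
  ∀ d ≤ N, ∀ c : Fin M → Fin (d + 1) → L, IsGeneral G F Φ c →
    ∃ κ : ℝ, ∀ S : Finset (HeightOneSpectrum (𝓞 L)), ∃ C : ℝ, Inequality n G F δ c S κ C

theorem mem_tangentSpace {k Ω : Type} [Field k] [Field Ω] [Algebra k Ω] {M g : ℕ}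
    {G : Fin g → MvPolynomial (Fin M) k} {z v : Fin M → Ω} :
    v ∈ tangentSpace G z ↔ ∀ i, ∑ j, aeval z (pderiv j (G i)) * v j = 0 := by
  unfold tangentSpace
  rw [Submodule.mem_iInf]
  refine forall_congr' fun i => ?_
  rw [LinearMap.mem_ker, LinearMap.sum_apply]
  rfl

theorem tangentSpace_eq {k Ω : Type} [Field k] [Field Ω] [Algebra k Ω] {M g : ℕ}
    (G : Fin g → MvPolynomial (Fin M) k) (z : Fin M → Ω) :
    tangentSpace G z = Pool.Agent.N750.TS G z := by
  ext v
  rw [mem_tangentSpace, Pool.Agent.N750.mem_TS]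

/-- a local height is positive -/
theorem localHeight_pos {k L : Type} [Field k] [Field L] [NumberField L] [Algebra k L]
    {M w : ℕ} (v : HeightOneSpectrum (𝓞 L)) (F : Fin w → MvPolynomial (Fin M) k) (δ : ℕ)
    (x : Fin M → L) (hx : x ≠ 0) (hxF : ∃ j, aeval x (F j) ≠ 0) :
    0 < localHeight (FinitePlace.mk v).1 F δ x ↔
      ∀ j, Pool.Agent.W180.OP.av (Sum.inr v : Pool.Agent.W180.OP.Pl L) (aeval x (F j)) <
        Pool.Agent.W180.OP.nrm (Pool.Agent.W180.OP.av (Sum.inr v : Pool.Agent.W180.OP.Pl L)) x ^ δ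
    := by
  set f := Pool.Agent.W180.OP.av (Sum.inr v : Pool.Agent.W180.OP.Pl L) with hf
  obtain ⟨j0, hj0⟩ := hxF
  have hF0 : (fun j => aeval x (F j)) ≠ 0 := fun h => hj0 (congrFun h j0)
  have h1 := Pool.Agent.W180.OP.nrm_pos f hx
  have h2 := Pool.Agent.W180.OP.nrm_pos f hF0
  have e1 : localHeight (FinitePlace.mk v).1 F δ x = Real.log (Pool.Agent.W180.OP.nrm f x ^ δ /
      Pool.Agent.W180.OP.nrm f (fun j => aeval x (F j))) := rfl
  rw [e1, Real.log_pos_iff (by positivity), one_lt_div h2]
  constructor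
  · intro h j
    exact (Pool.Agent.W180.OP.le_nrm f (fun j => aeval x (F j)) j).trans_lt h
  · intro h
    obtain ⟨j, hj⟩ := Pool.Agent.W180.OP.exists_nrm f j0.pos (fun j => aeval x (F j))
    rw [← hj]
    exact h j

theorem counting_eq {k L : Type} [Field k] [Field L] [NumberField L] [Algebra k L]
    {M q w : ℕ} (S : Finset (HeightOneSpectrum (𝓞 L)))
    (F : Fin q → Fin w → MvPolynomial (Fin M) k) (δ : Fin q → ℕ) (x : Fin M → L) (hx : x ≠ 0)
    (hxF : ∀ i, ∃ j, aeval x (F i j) ≠ 0) :
    counting S F δ x = Pool.Agent.Q290.NF.wt (fun v => v ∉ S ∧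
      Pool.Agent.H432.TC.DM F δ x v) / Module.finrank ℚ L := by
  unfold counting Pool.Agent.Q290.NF.wt
  congr 1
  refine finsum_congr fun v => ?_
  have h1 : (∃ i, 0 < localHeight (FinitePlace.mk v).1 (F i) (δ i) x) ↔
      Pool.Agent.H432.TC.DM F δ x v := by
    unfold Pool.Agent.H432.TC.DM
    exact exists_congr fun i => localHeight_pos v (F i) (δ i) x hx (hxF i)
  by_cases h : v ∉ S ∧ Pool.Agent.H432.TC.DM F δ x v
  · rw [if_pos (by rw [h1]; exact h), Pool.Agent.Q290.NF.ind_pos
      (P := fun v => v ∉ S ∧ Pool.Agent.H432.TC.DM F δ x v) h]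
    rfl
  · rw [if_neg (by rw [h1]; exact h), Pool.Agent.Q290.NF.ind_neg
      (P := fun v => v ∉ S ∧ Pool.Agent.H432.TC.DM F δ x v) h]

/-- the curves in the sense of the helper files -/
theorem rc0 {k L : Type} [Field k] [Field L] [Algebra k L] {M g d : ℕ}
    {G : Fin g → MvPolynomial (Fin M) k} {e : Fin g → ℕ} (hG : ∀ i, (G i).IsHomogeneous (e i))
    {c : Fin M → Fin (d + 1) → L} (hc : IsRationalCurve G c) :
    Pool.Agent.H432.TC.RC0 G c := by
  refine ⟨?_, ?_⟩
  · intro Ω _ _ z hz
    let _ : Algebra k Ω := ((algebraMap L Ω).comp (algebraMap k L)).toAlgebra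
    have _ : IsScalarTower k L Ω := IsScalarTower.of_algebraMap_eq fun a => rfl
    exact (hc Ω z hz).1
  · intro Ω _ _ _ _ z i
    by_cases hz : z = 0
    · rw [hz]
      have hne : (![1, 1] : Fin 2 → Ω) ≠ 0 := fun h => one_ne_zero (congrFun h 0)
      have h1 := (hc Ω ![1, 1] hne).2 i
      by_cases hd0 : d = 0
      · subst hd0
        have h2 : Pool.Agent.H432.RC.pc (fun l m => algebraMap L Ω (c l m))
            (0 : Fin 2 → Ω) = curvePoint (fun l m => algebraMap L Ω (c l m)) ![1, 1] := by
          funext l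
          unfold Pool.Agent.H432.RC.pc curvePoint
          simp
        rw [h2]
        exact h1
      · have h2 : Pool.Agent.H432.RC.pc (fun l m => algebraMap L Ω (c l m))
            (0 : Fin 2 → Ω) = fun l => 0 * curvePoint (fun l m => algebraMap L Ω (c l m))
              ![1, 1] l := by
          funext l
          unfold Pool.Agent.H432.RC.pc
          rw [zero_mul]
          refine Finset.sum_eq_zero fun m _ => ?_
          have h3 : (0 : Ω) ^ (m : ℕ) * (0 : Ω) ^ (d - (m : ℕ)) = 0 := by
            rw [← pow_add]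
            have : (m : ℕ) + (d - m) = d := by
              have := m.2
              omega
            rw [this, zero_pow hd0]
          show _ * ((0 : Ω) ^ (m : ℕ) * (0 : Ω) ^ (d - (m : ℕ))) = 0
          rw [h3, mul_zero]
        rw [h2, Pool.Agent.H432.RC.aeval_hom (hG i), h1, mul_zero]
    · exact (hc Ω z hz).2 i

theorem cond_eq {K : Type} [Field K] [NumberField K] (x : K) :
    cond x = Pool.Agent.Q290.NF.wt (fun v : HeightOneSpectrum (𝓞 K) => v.valuation K x < 1) /
      Module.finrank ℚ K := by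
  unfold cond Pool.Agent.Q290.NF.wt
  congr 1
  refine finsum_congr fun v => ?_
  by_cases h : v.valuation K x < 1
  · rw [if_pos h, Pool.Agent.Q290.NF.ind_pos (P := fun v : HeightOneSpectrum (𝓞 K) =>
      v.valuation K x < 1) h]
    rfl
  · rw [if_neg h, Pool.Agent.Q290.NF.ind_neg (P := fun v : HeightOneSpectrum (𝓞 K) =>
      v.valuation K x < 1) h]

theorem wa_of {K : Type} [Field K] [NumberField K] (h : WeakABC K) :
    ∃ κ : ℝ, 0 ≤ κ ∧ Pool.Agent.H432.WK.WA K κ := by
  obtain ⟨κ, hκ, h⟩ := h
  refine ⟨κ, by linarith, fun x hx0 hx1 => ?_⟩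
  have hd : (0 : ℝ) < Module.finrank ℚ K := by exact_mod_cast Module.finrank_pos
  have h1 := h x hx0 hx1
  rw [cond_eq, cond_eq, cond_eq] at h1
  unfold height at h1
  rw [Height.logHeight₁_eq_logHeight]
  rw [div_le_iff₀ hd] at h1
  refine h1.trans (le_of_eq ?_)
  field_simp

section forward

variable {k : Type} [Field k] [NumberField k] {n M g q w : ℕ}
  {G : Fin g → MvPolynomial (Fin M) k} {e : Fin g → ℕ}
  {F : Fin q → Fin w → MvPolynomial (Fin M) k} {δ : Fin q → ℕ}

/-- one form `Φ` for both statements -/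
theorem forward (hP : IsPair n G e F δ) (N : ℕ) : ∃ (m : ℕ) (Φ : MvPolynomial (Fin M) k),
    Φ ∉ Ideal.span (Set.range G) ∧ Φ.IsHomogeneous m ∧
      ∀ (L : Type) [Field L] [NumberField L] [Algebra k L],
      (WeakABC L → SplitCurves L n G F δ N Φ) ∧
      ((∀ (E : Type) [Field E] [NumberField E], WeakABC E) → RationalCurves L n G F δ N Φ) := by
  classical
  obtain ⟨hn, hG, hI, hX, hF, hD⟩ := hP
  obtain ⟨n', rfl⟩ : ∃ n', n = n' + 1 := ⟨n - 1, by omega⟩
  have hsm : Pool.Agent.N750.Sm (n' + 1) G := by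
    intro Ω _ _ z hz hzG
    rw [← tangentSpace_eq]
    exact hX Ω z hz hzG
  have hnc : Pool.Agent.H432.RC.NCD G F := by
    intro Ω _ _ z hz hzG
    obtain ⟨J, hJ⟩ := hD Ω z hz hzG
    refine ⟨J, fun c hc hv => hJ c hc fun v hvm => hv v ?_⟩
    rw [← tangentSpace_eq]
    exact hvm
  obtain ⟨m, Φ, Cx, hΦm, hΦI, hCx, hmain⟩ := Pool.Agent.H432.WK.main_wk G e hG hI hsm F δ hF hnc N
  refine ⟨m, Φ, hΦI, hΦm, ?_⟩
  intro L _ _ _
  have hd : (0 : ℝ) < Module.finrank ℚ L := by exact_mod_cast Module.finrank_pos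
  have key : ∀ (E : Type) [Field E] [NumberField E] [Algebra k E] [Algebra L E]
      [IsScalarTower k L E] (κ : ℝ), 0 ≤ κ → Pool.Agent.H432.WK.WA E κ →
      ∀ d ≤ N, ∀ c : Fin M → Fin (d + 1) → L, IsGeneral G F Φ c →
      Pool.Agent.H432.RC.CurveOK G F (fun l m => algebraMap L E (c l m)) →
      ∀ S : Finset (HeightOneSpectrum (𝓞 L)), ∃ C : ℝ,
        Inequality (n' + 1) G F δ c S (Cx * κ) C := by
    intro E _ _ _ _ _ κ hκ hWA d hdN c hc hok S
    obtain ⟨C, hC⟩ := hmain L E κ hκ hWA d hdN c (rc0 hG hc.1) hok hc.2.1 S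
    refine ⟨C / Module.finrank ℚ L, fun s hs hsF A hA => ?_⟩
    have hx0 : curvePoint c s ≠ 0 := (hc.1 L s hs).1
    have hTB : Pool.Agent.N750.IsTB G (curvePoint c s) (fun l c => A l c) := by
      refine ⟨hA.1, fun c => ?_⟩
      rw [← tangentSpace_eq]
      exact hA.2 c
    have h1 := hC s hs hsF (fun l c => A l c) hTB
    have e0 : Pool.Agent.H432.RC.pc c s = curvePoint c s := rfl
    rw [e0] at h1
    unfold Pool.Agent.H432.WK.LH at h1
    rw [counting_eq S F δ _ hx0 hsF]
    have e1 : Pool.Agent.N750.mv (fun l c => A l c) =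
        fun J : Fin (n' + 1 + 1) → Fin M => (A.submatrix J id).det := rfl
    rw [e1] at h1
    unfold canonicalHeight divisorHeight height
    set D : ℝ := (Module.finrank ℚ L : ℝ) with hDdef
    have e2 : ∑ i, ((δ i : ℝ) * (Height.logHeight (curvePoint c s) / D) -
        Height.logHeight (fun j => aeval (curvePoint c s) (F i j)) / D) =
        (∑ i, ((δ i : ℝ) * Height.logHeight (curvePoint c s) -
        Height.logHeight (fun j => aeval (curvePoint c s) (F i j)))) / D := by
      rw [Finset.sum_div]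
      exact Finset.sum_congr rfl fun i _ => by ring
    rw [e2]
    have h3 := div_le_div_of_nonneg_right h1 hd.le
    push_cast
    calc _ = (Height.logHeight (fun J : Fin (n' + 1 + 1) → Fin M => (A.submatrix J id).det) -
          (n' + 2) * Height.logHeight (curvePoint c s) +
          ∑ i, ((δ i : ℝ) * Height.logHeight (curvePoint c s) -
          Height.logHeight (fun j => aeval (curvePoint c s) (F i j)))) / D := by ring
      _ ≤ _ := h3
      _ = _ := by ring
  refine ⟨fun h => ?_, fun h => ?_⟩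
  · obtain ⟨κ, hκ, hWA⟩ := wa_of h
    refine ⟨Cx * κ, fun d hdN c hc hs S => key L κ hκ hWA d hdN c hc ⟨?_, ?_, ?_⟩ S⟩
    · intro Ω _ _ z hz
      exact (rc0 hG hc.1).nz Ω z hz
    · intro z i
      exact (rc0 hG hc.1).onX L z i
    · intro Ω _ _ _ _ z hz i hzF
      exact hs Ω z hz i hzF
  · intro d hdN c hc
    obtain ⟨E, iE1, iE2, iE3, iE4, iE5, hok⟩ :=
      Pool.Agent.H432.TC.exists_E hF (rc0 hG hc.1) hc.2.2
    obtain ⟨κ, hκ, hWA⟩ := wa_of (h E)
    exact ⟨Cx * κ, fun S => key E κ hκ hWA d hdN c hc hok S⟩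

end forward

/-- the line with the points `0`, `1`, `∞`: the weak inequality implies the weak abc conjecture -/
theorem backward (L : Type) [Field L] [NumberField L]
    (h : ∀ (n M g q w : ℕ) (G : Fin g → MvPolynomial (Fin M) L) (e : Fin g → ℕ)
      (F : Fin q → Fin w → MvPolynomial (Fin M) L) (δ : Fin q → ℕ), IsPair n G e F δ → ∀ N : ℕ,
      ∃ (m : ℕ) (Φ : MvPolynomial (Fin M) L), Φ ∉ Ideal.span (Set.range G) ∧ Φ.IsHomogeneous m ∧
        ∀ d ≤ N, ∀ c : Fin M → Fin (d + 1) → L, IsGeneral G F Φ c → IsSplit F c →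
          ∃ κ : ℝ, ∀ S : Finset (HeightOneSpectrum (𝓞 L)), ∃ C : ℝ,
            Inequality n G F δ c S κ C) : WeakABC L := by
  classical
  set G : Fin 0 → MvPolynomial (Fin 2) L := fun i => i.elim0 with hG
  have hrange : Set.range G = ∅ := Set.range_eq_empty G
  have hI : (Ideal.span (Set.range G)).IsPrime := by
    rw [hrange, Ideal.span_empty]
    exact Ideal.isPrime_bot
  have hTS : ∀ (Ω : Type) [Field Ω] [Algebra L Ω] (z : Fin 2 → Ω), tangentSpace G z = ⊤ := by
    intro Ω _ _ z
    unfold tangentSpace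
    exact iInf_of_empty _
  have hX : IsSmooth 1 G := by
    intro Ω _ _ z _ _
    rw [hTS, finrank_top, Module.finrank_fin_fun]
  set F : Fin 3 → Fin 1 → MvPolynomial (Fin 2) L := fun i _ => ![X 0, X 1, X 0 - X 1] i with hF
  have hFh : ∀ i j, (F i j).IsHomogeneous 1 := by
    intro i j
    fin_cases i
    · exact isHomogeneous_X _ _
    · exact isHomogeneous_X _ _
    · exact (isHomogeneous_X _ _).sub (isHomogeneous_X _ _)
  have hF0 : ∀ {Ω : Type} [Field Ω] [Algebra L Ω] (z : Fin 2 → Ω),
      aeval z (F 0 0) = z 0 := by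
    intro Ω _ _ z
    show aeval z (X 0 : MvPolynomial (Fin 2) L) = z 0
    rw [aeval_X]
  have hF1 : ∀ {Ω : Type} [Field Ω] [Algebra L Ω] (z : Fin 2 → Ω),
      aeval z (F 1 0) = z 1 := by
    intro Ω _ _ z
    show aeval z (X 1 : MvPolynomial (Fin 2) L) = z 1
    rw [aeval_X]
  have hF2 : ∀ {Ω : Type} [Field Ω] [Algebra L Ω] (z : Fin 2 → Ω),
      aeval z (F 2 0) = z 0 - z 1 := by
    intro Ω _ _ z
    show aeval z (X 0 - X 1 : MvPolynomial (Fin 2) L) = z 0 - z 1
    rw [map_sub, aeval_X, aeval_X]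
  have hNC : IsNormalCrossings G F := by
    intro Ω _ _ z hz _
    refine ⟨fun _ => 0, fun c hc hv => ?_⟩
    have e0 : ∀ v : Fin 2 → Ω, ∑ l, aeval z (pderiv l (F 0 0)) * v l = v 0 := by
      intro v
      show ∑ l, aeval z (pderiv l (X 0 : MvPolynomial (Fin 2) L)) * v l = v 0
      rw [Fin.sum_univ_two, pderiv_X_self, pderiv_X_of_ne (by decide)]
      simp
    have e1 : ∀ v : Fin 2 → Ω, ∑ l, aeval z (pderiv l (F 1 0)) * v l = v 1 := by
      intro v
      show ∑ l, aeval z (pderiv l (X 1 : MvPolynomial (Fin 2) L)) * v l = v 1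
      rw [Fin.sum_univ_two, pderiv_X_self, pderiv_X_of_ne (by decide)]
      simp
    have e2 : ∀ v : Fin 2 → Ω, ∑ l, aeval z (pderiv l (F 2 0)) * v l = v 0 - v 1 := by
      intro v
      show ∑ l, aeval z (pderiv l (X 0 - X 1 : MvPolynomial (Fin 2) L)) * v l = v 0 - v 1
      rw [Fin.sum_univ_two]
      simp only [map_sub]
      rw [pderiv_X_self, pderiv_X_self, pderiv_X_of_ne (by decide), pderiv_X_of_ne (by decide)]
      simp
      ring
    have hv' : ∀ v : Fin 2 → Ω, c 0 * v 0 + c 1 * v 1 + c 2 * (v 0 - v 1) = 0 := by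
      intro v
      have h1 := hv v (by rw [hTS]; exact Submodule.mem_top)
      rw [Fin.sum_univ_three, e0, e1, e2] at h1
      exact h1
    have a1 := hv' ![1, 0]
    have a2 := hv' ![0, 1]
    simp at a1 a2
    have hc2 : c 2 = 0 := by
      by_contra hne
      have hc0 : c 0 ≠ 0 := fun h0 => hne (by rw [h0, zero_add] at a1; exact a1)
      have b1 := hc 0 hc0 0
      have b2 := hc 2 hne 0
      rw [hF0] at b1
      rw [hF2, b1, zero_sub, neg_eq_zero] at b2
      apply hz
      funext i
      fin_cases i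
      · exact b1
      · exact b2
    rw [hc2, add_zero] at a1
    rw [hc2, neg_zero, add_zero] at a2
    funext i
    fin_cases i
    · exact a1
    · exact a2
    · exact hc2
  obtain ⟨m, Φ, hΦI, -, hΦ⟩ := h 1 2 0 3 1 G (fun i => i.elim0) F (fun _ => 1)
    ⟨le_rfl, fun i => i.elim0, hI, hX, hFh, hNC⟩ 1
  rw [hrange, Ideal.span_empty, Ideal.mem_bot] at hΦI
  set c : Fin 2 → Fin (1 + 1) → L := fun l m => if (l : ℕ) + m = 1 then 1 else 0 with hc
  have hcp : ∀ (Ω : Type) [Field Ω] [Algebra L Ω] (z : Fin 2 → Ω),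
      curvePoint (fun l m => algebraMap L Ω (c l m)) z = z := by
    intro Ω _ _ z
    funext l
    unfold curvePoint
    rw [Fin.sum_univ_two]
    fin_cases l
    · simp [hc]
    · simp [hc]
  have hcL : ∀ z : Fin 2 → L, curvePoint c z = z := fun z => hcp L z
  have hrc : IsRationalCurve G c := by
    intro Ω _ _ _ _ z hz
    rw [hcp]
    exact ⟨hz, fun i => i.elim0⟩
  have hz1 : ∃ z : Fin 2 → L, aeval (curvePoint c z) Φ ≠ 0 := by
    obtain ⟨z, hz⟩ : ∃ z : Fin 2 → L, eval z Φ ≠ 0 := by
      by_contra hcon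
      push Not at hcon
      exact hΦI (MvPolynomial.funext fun z => by rw [hcon z, map_zero])
    refine ⟨z, ?_⟩
    rw [hcL, MvPolynomial.aeval_eq_eval]
    exact hz
  have hz2 : ∃ z : Fin 2 → L, z ≠ 0 ∧ ∀ i, ∃ j, aeval (curvePoint c z) (F i j) ≠ 0 := by
    refine ⟨![2, 1], fun h => one_ne_zero (congrFun h 1), fun i => ⟨0, ?_⟩⟩
    rw [hcL]
    fin_cases i
    · show aeval _ (F 0 0) ≠ 0
      rw [hF0]
      exact two_ne_zero
    · show aeval _ (F 1 0) ≠ 0
      rw [hF1]
      exact one_ne_zero
    · show aeval _ (F 2 0) ≠ 0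
      rw [hF2]
      show (2 : L) - 1 ≠ 0
      norm_num
  have hspl : IsSplit F c := by
    intro Ω _ iA _ _ z hz i hzF
    have h0 := hzF 0
    rw [hcp] at h0
    revert h0
    fin_cases i
    · intro h0
      have h0' : z 0 = 0 := by
        rw [← hF0 z]
        exact h0
      refine ⟨![0, 1], z 1, ?_⟩
      funext x
      fin_cases x
      · show z 0 = z 1 * (@algebraMap L Ω _ _ iA) 0
        rw [h0', map_zero, mul_zero]
      · show z 1 = z 1 * (@algebraMap L Ω _ _ iA) 1
        rw [map_one, mul_one]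
    · intro h0
      have h0' : z 1 = 0 := by
        rw [← hF1 z]
        exact h0
      refine ⟨![1, 0], z 0, ?_⟩
      funext x
      fin_cases x
      · show z 0 = z 0 * (@algebraMap L Ω _ _ iA) 1
        rw [map_one, mul_one]
      · show z 1 = z 0 * (@algebraMap L Ω _ _ iA) 0
        rw [h0', map_zero, mul_zero]
    · intro h0
      have h0' : z 0 - z 1 = 0 := by
        rw [← hF2 z]
        exact h0
      refine ⟨![1, 1], z 0, ?_⟩
      funext x
      fin_cases x
      · show z 0 = z 0 * (@algebraMap L Ω _ _ iA) 1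
        rw [map_one, mul_one]
      · show z 1 = z 0 * (@algebraMap L Ω _ _ iA) 1
        rw [map_one, mul_one]
        exact (sub_eq_zero.1 h0').symm
  have hd : (0 : ℝ) < Module.finrank ℚ L := by exact_mod_cast Module.finrank_pos
  obtain ⟨κ, hκ⟩ := hΦ 1 le_rfl c ⟨hrc, hz1, hz2⟩ hspl
  obtain ⟨C, hC⟩ := hκ ∅
  refine ⟨|κ| + |C| + 2, by have := abs_nonneg κ; have := abs_nonneg C; linarith, fun x hx0 hx1 => ?_⟩
  set s : Fin 2 → L := ![x, 1] with hs
  have hs0 : s ≠ 0 := fun h0 => one_ne_zero (congrFun h0 1)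
  have hsF : ∀ i, ∃ j, aeval (curvePoint c s) (F i j) ≠ 0 := by
    intro i
    refine ⟨0, ?_⟩
    rw [hcL]
    fin_cases i
    · show aeval _ (F 0 0) ≠ 0
      rw [hF0]
      exact hx0
    · show aeval _ (F 1 0) ≠ 0
      rw [hF1]
      exact one_ne_zero
    · show aeval _ (F 2 0) ≠ 0
      rw [hF2]
      exact sub_ne_zero.2 hx1
  have hTB : IsTangentBasis G (curvePoint c s) (1 : Matrix (Fin 2) (Fin (1 + 1)) L) := by
    refine ⟨?_, fun cc => by rw [hTS]; exact Submodule.mem_top⟩
    exact Matrix.linearIndependent_cols_iff_isUnit.2 isUnit_one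
  have h1 := hC s hs0 hsF (1 : Matrix (Fin 2) (Fin (1 + 1)) L) hTB
  rw [counting_eq ∅ F _ _ (by rw [hcL]; exact hs0) hsF] at h1
  rw [hcL] at h1 hsF
  have h2 : height s ≤ canonicalHeight s (1 : Matrix (Fin 2) (Fin (1 + 1)) L) +
      divisorHeight F (fun _ => 1) s := by
    unfold canonicalHeight divisorHeight
    have e1 : ∀ i, height (fun j => aeval s (F i j)) = 0 := by
      intro i
      unfold height
      rw [Pool.Agent.N750.logHeight_one, zero_div]
    have e2 : 0 ≤ height (fun J : Fin (1 + 1) → Fin 2 =>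
        ((1 : Matrix (Fin 2) (Fin (1 + 1)) L).submatrix J id).det) := by
      unfold height
      exact div_nonneg (Height.logHeight_nonneg _) hd.le
    simp only [e1]
    rw [Fin.sum_univ_three]
    push_cast
    linarith
  set W := Pool.Agent.Q290.NF.wt (fun v => v ∉ (∅ : Finset (HeightOneSpectrum (𝓞 L))) ∧
      Pool.Agent.H432.TC.DM F (fun _ => 1) s v) / Module.finrank ℚ L with hW
  have hW0 : 0 ≤ W := div_nonneg (Pool.Agent.Q290.NF.wt_nonneg _) hd.le
  have hsx : s 0 = x := rfl
  have hs1 : s 1 = 1 := rfl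
  have hf0 : {v : HeightOneSpectrum (𝓞 L) | v.valuation L x < 1}.Finite :=
    Pool.Agent.Q290.NF.fin_zero hx0
  have hf1 : {v : HeightOneSpectrum (𝓞 L) | v.valuation L x⁻¹ < 1}.Finite :=
    Pool.Agent.Q290.NF.fin_zero (inv_ne_zero hx0)
  have hf2 : {v : HeightOneSpectrum (𝓞 L) | v.valuation L (x - 1) < 1}.Finite :=
    Pool.Agent.Q290.NF.fin_zero (sub_ne_zero.2 hx1)
  have h3 : W ≤ cond x + cond x⁻¹ + cond (x - 1) := by
    rw [cond_eq, cond_eq, cond_eq, ← add_div, ← add_div, hW]
    refine div_le_div_of_nonneg_right ?_ hd.le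
    refine le_trans ?_ (add_le_add (Pool.Agent.Q290.NF.wt_or_le hf0 hf1) le_rfl)
    refine le_trans ?_ (Pool.Agent.Q290.NF.wt_or_le (hf0.union hf1) hf2)
    refine Pool.Agent.Q290.NF.wt_mono ((hf0.union hf1).union hf2) ?_
    rintro v ⟨-, i, hi⟩
    have h4 := hi 0
    rw [pow_one] at h4
    obtain ⟨l, hl⟩ := Pool.Agent.W180.OP.exists_nrm (Pool.Agent.W180.OP.av
      (Sum.inr v : Pool.Agent.W180.OP.Pl L)) (n := 2) (by norm_num) s
    rw [← hl] at h4
    have h5 : v.valuation L (aeval s (F i 0)) < v.valuation L (s l) :=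
      Pool.Agent.H432.TC.mk_lt_iff.1 h4
    have hle : ∀ m, v.valuation L (s m) ≤ v.valuation L (s l) := by
      intro m
      have e1 := Pool.Agent.W180.OP.le_nrm (Pool.Agent.W180.OP.av
        (Sum.inr v : Pool.Agent.W180.OP.Pl L)) s m
      rw [← hl] at e1
      exact not_lt.1 fun h8 => not_lt.2 e1 (Pool.Agent.H432.TC.mk_lt_iff.2 h8)
    by_cases hx : v.valuation L x < 1
    · exact Or.inl (Or.inl hx)
    · by_cases hxi : v.valuation L x⁻¹ < 1
      · exact Or.inl (Or.inr hxi)
      · right
        have hv0 : v.valuation L x ≠ 0 := (Valuation.ne_zero_iff _).2 hx0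
        have hx1v : v.valuation L x = 1 := by
          refine le_antisymm ?_ (not_lt.1 hx)
          rw [map_inv₀, not_lt] at hxi
          exact (one_le_inv₀ (zero_lt_iff.2 hv0)).1 hxi
        have h6 : v.valuation L (s l) = 1 := by
          fin_cases l
          · exact hx1v
          · exact map_one _
        rw [h6] at h5
        revert h5
        fin_cases i
        · intro h5
          exfalso
          have h7 : v.valuation L (aeval s (F 0 0)) < 1 := h5
          rw [hF0 s] at h7
          exact hx h7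
        · intro h5
          exfalso
          have h7 : v.valuation L (aeval s (F 1 0)) < 1 := h5
          rw [hF1 s, hs1, map_one] at h7
          exact lt_irrefl _ h7
        · intro h5
          have h7 : v.valuation L (aeval s (F 2 0)) < 1 := h5
          rw [hF2 s] at h7
          exact h7
  have h4 : height s ≤ κ * W + C := by linarith
  have h5 : κ * W ≤ |κ| * W := mul_le_mul_of_nonneg_right (le_abs_self κ) hW0
  have h6 : |κ| * W ≤ |κ| * (cond x + cond x⁻¹ + cond (x - 1)) :=
    mul_le_mul_of_nonneg_left h3 (abs_nonneg κ)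
  have h7 := le_abs_self C
  set U := cond x + cond x⁻¹ + cond (x - 1) with hU
  have hU0 : 0 ≤ U := hW0.trans h3
  have h8 : 0 ≤ (|C| + 2) * U := by positivity
  have h9 := abs_nonneg κ
  calc height ![x, 1] ≤ |κ| * U + |C| := by linarith
    _ ≤ (|κ| + |C| + 2) * (U + 1) := by nlinarith

/-- **The weak abc conjecture and the weak truncated Vojta inequality on rational curves.**
(1) For all `X`, `D`, `N` over `k` there is a proper closed `Z` such that for all number fields `L` over
`k` the weak abc conjecture over `L` implies the weak inequality, with one slope for all curves, on all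
rational curves over `L` of degree at most `N` outside `Z ∪ D` which meet `D` only at `L`-rational
parameters. (2) For every number field `L` the weak abc conjecture over `L` is equivalent to this
inequality for all `X`, `D`, `N` over `L`. (3) The weak abc conjecture over all number fields (Q1) is
equivalent to the weak inequality on all rational curves of bounded degree outside one `Z`. -/
theorem result :
    (∀ (k : Type) [Field k] [NumberField k] (n M g q w : ℕ) (G : Fin g → MvPolynomial (Fin M) k)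
      (e : Fin g → ℕ) (F : Fin q → Fin w → MvPolynomial (Fin M) k) (δ : Fin q → ℕ),
      IsPair n G e F δ → ∀ N : ℕ,
      ∃ (m : ℕ) (Φ : MvPolynomial (Fin M) k), Φ ∉ Ideal.span (Set.range G) ∧ Φ.IsHomogeneous m ∧
        ∀ (L : Type) [Field L] [NumberField L] [Algebra k L],
          WeakABC L → SplitCurves L n G F δ N Φ) ∧
    (∀ (L : Type) [Field L] [NumberField L], WeakABC L ↔
      ∀ (n M g q w : ℕ) (G : Fin g → MvPolynomial (Fin M) L) (e : Fin g → ℕ)
        (F : Fin q → Fin w → MvPolynomial (Fin M) L) (δ : Fin q → ℕ), IsPair n G e F δ → ∀ N : ℕ,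
        ∃ (m : ℕ) (Φ : MvPolynomial (Fin M) L), Φ ∉ Ideal.span (Set.range G) ∧
          Φ.IsHomogeneous m ∧ SplitCurves L n G F δ N Φ) ∧
    ((∀ (K : Type) [Field K] [NumberField K], WeakABC K) ↔
      ∀ (k : Type) [Field k] [NumberField k] (n M g q w : ℕ)
        (G : Fin g → MvPolynomial (Fin M) k) (e : Fin g → ℕ)
        (F : Fin q → Fin w → MvPolynomial (Fin M) k) (δ : Fin q → ℕ), IsPair n G e F δ → ∀ N : ℕ,
        ∃ (m : ℕ) (Φ : MvPolynomial (Fin M) k), Φ ∉ Ideal.span (Set.range G) ∧
          Φ.IsHomogeneous m ∧ ∀ (L : Type) [Field L] [NumberField L] [Algebra k L],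
            RationalCurves L n G F δ N Φ) := by
  refine ⟨?_, ?_, ?_⟩
  · intro k _ _ n M g q w G e F δ hP N
    obtain ⟨m, Φ, h1, h2, h3⟩ := forward hP N
    exact ⟨m, Φ, h1, h2, fun L _ _ _ h => (h3 L).1 h⟩
  · intro L _ _
    refine ⟨fun h n M g q w G e F δ hP N => ?_, fun h => backward L ?_⟩
    · obtain ⟨m, Φ, h1, h2, h3⟩ := forward hP N
      exact ⟨m, Φ, h1, h2, (h3 L).1 h⟩
    · intro n M g q w G e F δ hP N
      obtain ⟨m, Φ, h1, h2, κ, h3⟩ := h n M g q w G e F δ hP N
      exact ⟨m, Φ, h1, h2, fun d hd c hc hs => ⟨κ, fun S => h3 d hd c hc hs S⟩⟩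
  · refine ⟨fun h k _ _ n M g q w G e F δ hP N => ?_, fun h K _ _ => backward K ?_⟩
    · obtain ⟨m, Φ, h1, h2, h3⟩ := forward hP N
      exact ⟨m, Φ, h1, h2, fun L _ _ _ => (h3 L).2 h⟩
    · intro n M g q w G e F δ hP N
      obtain ⟨m, Φ, h1, h2, h3⟩ := h K n M g q w G e F δ hP N
      exact ⟨m, Φ, h1, h2, fun d hd c hc _ => h3 K d hd c hc⟩

end Pool.Agent.Results.MP_f5a5f7_nt.WeakVojtaOnRationalCurves
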